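import Pool.Agent.H.MP_92a118_co.Cara

set_option autoImplicit false

namespace Pool.Agent.H.MP_92a118_co

open Finset Matrix

variable {ι : Type} [Fintype ι] [DecidableEq ι]

def c (v : ι → ℤ) : ι → ℝ := fun i => (v i : ℝ)

omit [DecidableEq ι] in
lemma c_dot (u v : ι → ℤ) : c u ⬝ᵥ c v = ((u ⬝ᵥ v : ℤ) : ℝ) := by
  simp [c, dotProduct]

omit [Fintype ι] [DecidableEq ι] in
lemma c_sub (u v : ι → ℤ) : c (u - v) = c u - c v := by ext i; simp [c]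

omit [Fintype ι] [DecidableEq ι] in
lemma c_sum {α : Type} (s : Finset α) (f : α → ι → ℤ) : c (∑ a ∈ s, f a) = ∑ a ∈ s, c (f a) := by
  ext i; simp [c]

omit [Fintype ι] [DecidableEq ι] in
lemma c_inj {u v : ι → ℤ} (h : c u = c v) : u = v := by
  ext i; have := congrFun h i; simpa [c] using this

structure Setup (V U : Finset (ι → ℤ)) (m m' : ι → ℤ) : Prop where
  nn : ∀ u ∈ U, ∀ v ∈ V, 0 ≤ u ⬝ᵥ v
  um : ∀ u ∈ U, u ⬝ᵥ m = 1
  vm : ∀ v ∈ V, m' ⬝ᵥ v = 1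
  pr : ∀ z : ι → ℝ, (∀ u ∈ U, 0 ≤ c u ⬝ᵥ z) →
    ∃ l : (ι → ℤ) → ℝ, (∀ v ∈ V, 0 ≤ l v) ∧ z = ∑ v ∈ V, l v • c v
  du : ∀ φ : ι → ℝ, (∀ v ∈ V, 0 ≤ φ ⬝ᵥ c v) →
    ∃ μ : (ι → ℤ) → ℝ, (∀ u ∈ U, 0 ≤ μ u) ∧ φ = ∑ u ∈ U, μ u • c u
  np : ∀ v ∈ V, ∀ u ∈ U, u ⬝ᵥ v = 1 → ∃ u' ∈ U, u' ≠ u ∧ u' ⬝ᵥ v ≠ 0

variable {V U : Finset (ι → ℤ)} {m m' : ι → ℤ}

lemma Setup.ht (S : Setup V U m m') {z : ι → ℝ} (hz : ∀ u ∈ U, 0 ≤ c u ⬝ᵥ z) :
    0 ≤ c m' ⬝ᵥ z ∧ (c m' ⬝ᵥ z = 0 → z = 0) := by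
  obtain ⟨l, hl, rfl⟩ := S.pr z hz
  have : c m' ⬝ᵥ ∑ v ∈ V, l v • c v = ∑ v ∈ V, l v := by
    rw [dotProduct_sum]
    refine Finset.sum_congr rfl fun v hv => ?_
    rw [dotProduct_smul, c_dot, S.vm v hv]; simp
  rw [this]
  refine ⟨Finset.sum_nonneg hl, fun h => ?_⟩
  rw [Finset.sum_eq_zero_iff_of_nonneg hl] at h
  exact Finset.sum_eq_zero fun v hv => by rw [h v hv, zero_smul]

lemma Setup.ex_pos (S : Setup V U m m') {v : ι → ℤ} (hv : v ∈ V) : ∃ u ∈ U, 1 ≤ u ⬝ᵥ v := by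
  by_contra h
  push Not at h
  have h0 : ∀ u ∈ U, u ⬝ᵥ v = 0 := fun u hu => by have := h u hu; have := S.nn u hu v hv; omega
  have := (S.ht (z := -c v) (fun u hu => by rw [dotProduct_neg, c_dot, h0 u hu]; simp)).1
  rw [dotProduct_neg, c_dot, S.vm v hv] at this
  norm_num at this

lemma Setup.mu (S : Setup V U m m') :
    ∃ μ : (ι → ℤ) → ℝ, (∀ u ∈ U, 0 < μ u) ∧ c m' = ∑ u ∈ U, μ u • c u := by
  set K : ℝ := ∑ v ∈ V, ∑ u ∈ U, ((u ⬝ᵥ v : ℤ) : ℝ) with hK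
  have hnn : ∀ v ∈ V, 0 ≤ ∑ u ∈ U, ((u ⬝ᵥ v : ℤ) : ℝ) := fun v hv =>
    Finset.sum_nonneg fun u hu => by exact_mod_cast S.nn u hu v hv
  have hK0 : 0 ≤ K := Finset.sum_nonneg hnn
  obtain ⟨μ, hμ, he⟩ := S.du (c m' - (1 / (1 + K)) • ∑ u ∈ U, c u) (by
    intro v hv
    rw [sub_dotProduct, smul_dotProduct, sum_dotProduct, c_dot, S.vm v hv]
    simp only [c_dot]
    have := Finset.single_le_sum hnn hv
    rw [smul_eq_mul, one_div_mul_eq_div, sub_nonneg, div_le_iff₀ (by linarith)]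
    push_cast at this ⊢
    linarith)
  refine ⟨fun u => μ u + 1 / (1 + K), fun u hu => by have := hμ u hu; positivity, ?_⟩
  simp only [add_smul, Finset.sum_add_distrib, ← Finset.smul_sum, ← he]
  simp

lemma ex_generic (U : Finset (ι → ℤ)) :
    ∃ z : ι → ℝ, ∀ u ∈ U, ∀ u' ∈ U, u ≠ u' → c u ⬝ᵥ z ≠ c u' ⬝ᵥ z := by
  classical
  let L : (ι → ℤ) → (ι → ℝ) →ₗ[ℝ] ℝ := fun w =>
    { toFun := fun z => c w ⬝ᵥ z
      map_add' := fun a b => dotProduct_add _ _ _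
      map_smul' := fun a b => dotProduct_smul _ _ _ }
  let s : Finset (Subspace ℝ (ι → ℝ)) :=
    U.offDiag.image fun p => LinearMap.ker (L (p.1 - p.2))
  have hs : ⊤ ∉ s := by
    intro h
    obtain ⟨p, hp, e⟩ := Finset.mem_image.1 h
    rw [LinearMap.ker_eq_top] at e
    apply (Finset.mem_offDiag.1 hp).2.2
    ext i
    have := LinearMap.congr_fun e (Pi.single i 1)
    simp [L, c] at this
    have h2 : (p.1 i : ℝ) = p.2 i := by linarith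
    exact_mod_cast h2
  have := Subspace.biUnion_ne_univ_of_top_notMem hs
  rw [Set.ne_univ_iff_exists_notMem] at this
  obtain ⟨z, hz⟩ := this
  refine ⟨z, fun u hu u' hu' hne h => hz ?_⟩
  simp only [Set.mem_iUnion]
  refine ⟨LinearMap.ker (L (u - u')),
    Finset.mem_image.2 ⟨(u, u'), Finset.mem_offDiag.2 ⟨hu, hu', hne⟩, rfl⟩, ?_⟩
  simp [L, c_sub, h]

/-- writing a vector modulo W by few generators -/
lemma Setup.few (S : Setup V U m m') (W : Submodule ℝ (ι → ℝ)) (hm : c m ∈ W) (z : ι → ℝ) :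
    ∃ B ⊆ V, B.card + Module.finrank ℝ W ≤ Fintype.card ι ∧
      ∀ u ∈ U, ∀ u' ∈ U, (∀ w ∈ W, c u ⬝ᵥ w = c u' ⬝ᵥ w) → c u' ⬝ᵥ z < c u ⬝ᵥ z →
        1 ≤ ∑ v ∈ B, u ⬝ᵥ v := by
  classical
  set t : ℝ := ∑ u ∈ U, |c u ⬝ᵥ z|
  obtain ⟨l, hl, he⟩ := S.pr (z + t • c m) (by
    intro u hu
    rw [dotProduct_add, dotProduct_smul, c_dot, S.um u hu]
    have h1 := Finset.single_le_sum (f := fun u => |c u ⬝ᵥ z|) (fun u _ => abs_nonneg _) hu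
    have h2 := neg_abs_le (c u ⬝ᵥ z)
    simp only [smul_eq_mul, Int.cast_one, mul_one]
    linarith)
  obtain ⟨B, hB, β, hβ, hi, hs⟩ := conic_cara (fun v => W.mkQ (c v)) _ V l rfl hl
  refine ⟨B, hB, ?_, ?_⟩
  · have h1 := W.finrank_quotient_add_finrank
    have h2 := hi.fintype_card_le_finrank
    simp only [Module.finrank_fintype_fun_eq_card] at h1
    simp at h2
    omega
  · intro u hu u' hu' hW hlt
    have hw : z - ∑ v ∈ B, β v • c v ∈ W := by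
      have h1 : W.mkQ (∑ v ∈ B, β v • c v) = W.mkQ (z + t • c m) := by
        rw [he]; simp only [map_sum, map_smul]; exact hs
      have h2 := (Submodule.Quotient.eq W).1 h1.symm
      have h3 := W.sub_mem h2 (W.smul_mem t hm)
      convert h3 using 1
      abel
    have h4 := hW _ hw
    rw [dotProduct_sub, dotProduct_sub, dotProduct_sum, dotProduct_sum] at h4
    simp only [dotProduct_smul, c_dot, smul_eq_mul] at h4
    by_contra hc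
    push Not at hc
    have h0 : ∀ v ∈ B, u ⬝ᵥ v = 0 := by
      have hn : ∀ v ∈ B, 0 ≤ u ⬝ᵥ v := fun v hv => S.nn u hu v (hB hv)
      have := Finset.sum_nonneg hn
      exact (Finset.sum_eq_zero_iff_of_nonneg hn).1 (by omega)
    have h5 : ∑ v ∈ B, β v * ((u ⬝ᵥ v : ℤ) : ℝ) = 0 :=
      Finset.sum_eq_zero fun v hv => by rw [h0 v hv]; simp
    have h6 : 0 ≤ ∑ v ∈ B, β v * ((u' ⬝ᵥ v : ℤ) : ℝ) :=
      Finset.sum_nonneg fun v hv => mul_nonneg (hβ v hv).le (by exact_mod_cast S.nn u' hu' v (hB hv))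
    linarith

/-- the maximal decomposition of the Gorenstein point -/
lemma Setup.decomp (S : Setup V U m m') :
    ∃ J ⊆ V, ∃ I ⊆ V, ∃ l : (ι → ℤ) → ℝ, (∀ i ∈ I, 0 < l i) ∧ (∀ i ∈ I, l i < 1) ∧
      LinearIndepOn ℝ c (I : Set (ι → ℤ)) ∧ c m = ∑ j ∈ J, c j + ∑ i ∈ I, l i • c i ∧
      Disjoint J I := by
  classical
  obtain ⟨J, hJ, hmax⟩ := Finset.exists_max_image
    (V.powerset.filter fun J => ∀ u ∈ U, ∑ j ∈ J, u ⬝ᵥ j ≤ 1) Finset.card ⟨∅, by simp⟩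
  rw [Finset.mem_filter, Finset.mem_powerset] at hJ
  obtain ⟨l0, hl0, he⟩ := S.pr (c m - ∑ j ∈ J, c j) (by
    intro u hu
    rw [dotProduct_sub, dotProduct_sum, c_dot, S.um u hu]
    simp only [c_dot]
    have := hJ.2 u hu
    rw [sub_nonneg]
    exact_mod_cast this)
  obtain ⟨I, hI, l, hl, hi, hs⟩ := conic_cara c _ V l0 rfl hl0
  rw [← he] at hs
  have key : ∀ u ∈ U, ∀ i ∈ I,
      l i * ((u ⬝ᵥ i : ℤ) : ℝ) + ((∑ j ∈ J, u ⬝ᵥ j : ℤ) : ℝ) ≤ 1 := by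
    intro u hu i hi
    have h1 := congrArg (fun z => c u ⬝ᵥ z) hs
    simp only [dotProduct_sub, dotProduct_sum, dotProduct_smul, c_dot, S.um u hu, smul_eq_mul] at h1
    have h2 := Finset.single_le_sum (f := fun i => l i * ((u ⬝ᵥ i : ℤ) : ℝ))
      (fun i hi => mul_nonneg (hl i hi).le (by exact_mod_cast S.nn u hu i (hI hi))) hi
    push_cast at h1 ⊢
    linarith
  have hd : Disjoint J I := by
    rw [Finset.disjoint_left]
    intro v hvJ hvI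
    obtain ⟨u, hu, h1⟩ := S.ex_pos (hI hvI)
    have h2 := key u hu v hvI
    have h3 : u ⬝ᵥ v ≤ ∑ j ∈ J, u ⬝ᵥ j :=
      Finset.single_le_sum (f := fun j => u ⬝ᵥ j) (fun j hj => S.nn u hu j (hJ.1 hj)) hvJ
    have h4 : (1 : ℝ) ≤ ((u ⬝ᵥ v : ℤ) : ℝ) := by exact_mod_cast h1
    have h5 : (1 : ℝ) ≤ ((∑ j ∈ J, u ⬝ᵥ j : ℤ) : ℝ) := by exact_mod_cast h1.trans h3
    have := hl v hvI
    nlinarith
  refine ⟨J, hJ.1, I, hI, l, hl, ?_, hi, by rw [hs]; abel, hd⟩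
  intro i hi
  by_contra h
  push Not at h
  have hn : i ∉ J := Finset.disjoint_right.1 hd hi
  have := hmax (insert i J) (by
    rw [Finset.mem_filter, Finset.mem_powerset]
    refine ⟨Finset.insert_subset (hI hi) hJ.1, fun u hu => ?_⟩
    rw [Finset.sum_insert hn]
    have h2 := key u hu i hi
    have h3 : (0 : ℝ) ≤ ((u ⬝ᵥ i : ℤ) : ℝ) := by exact_mod_cast S.nn u hu i (hI hi)
    have h4 : ((u ⬝ᵥ i + ∑ j ∈ J, u ⬝ᵥ j : ℤ) : ℝ) ≤ 1 := by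
      rw [Int.cast_add]; nlinarith
    exact_mod_cast h4)
  rw [Finset.card_insert_of_notMem hn] at this
  omega

end Pool.Agent.H.MP_92a118_co
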