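import Pool.Agent.H.MP_92a118_co.Struct

set_option autoImplicit false

namespace Pool.Agent.H.MP_92a118_co

open Finset Matrix

variable {d : ℕ}

def hom {R : Type} (a : R) (p : Fin d → R) : Option (Fin d) → R := fun o => o.elim a p

lemma hom_dot {R : Type} [CommRing R] (a b : R) (p q : Fin d → R) :
    hom a p ⬝ᵥ hom b q = a * b + p ⬝ᵥ q := by
  simp [dotProduct, hom, Fintype.sum_option]

lemma hom_eta {R : Type} (z : Option (Fin d) → R) : hom (z none) (fun i => z (some i)) = z := by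
  ext o; cases o <;> rfl

lemma c_hom (a : ℤ) (p : Fin d → ℤ) : c (hom a p) = hom (a : ℝ) (c p) := by
  ext o; cases o <;> rfl

lemma hom_inj {R : Type} {a b : R} {p q : Fin d → R} (h : hom a p = hom b q) : p = q :=
  funext fun i => congrFun h (some i)

lemma mem_hull {κ : Type} (S : Finset (κ → ℤ)) (x : κ → ℝ) :
    x ∈ convexHull ℝ (c '' (S : Set (κ → ℤ))) ↔
      ∃ w : (κ → ℤ) → ℝ, (∀ p ∈ S, 0 ≤ w p) ∧ ∑ p ∈ S, w p = 1 ∧ ∑ p ∈ S, w p • c p = x := by
  classical
  constructor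
  · intro h
    rw [← Finset.coe_image, Finset.mem_convexHull'] at h
    obtain ⟨w, h0, h1, h2⟩ := h
    rw [Finset.sum_image (fun a _ b _ h => c_inj h)] at h1 h2
    exact ⟨fun p => w (c p), fun p hp => h0 _ (Finset.mem_image_of_mem _ hp), h1, h2⟩
  · rintro ⟨w, h0, h1, rfl⟩
    exact (convex_convexHull ℝ _).sum_mem h0 h1
      fun p hp => subset_convexHull ℝ _ ⟨p, hp, rfl⟩

lemma hull_ineq {κ : Type} [Fintype κ] {S : Finset (κ → ℤ)} {a : ℝ} {y : κ → ℝ}
    (h : ∀ p ∈ S, 0 ≤ a + y ⬝ᵥ c p) {x : κ → ℝ}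
    (hx : x ∈ convexHull ℝ (c '' (S : Set (κ → ℤ)))) : 0 ≤ a + y ⬝ᵥ x := by
  obtain ⟨w, h0, h1, rfl⟩ := (mem_hull S x).1 hx
  have : a + y ⬝ᵥ ∑ p ∈ S, w p • c p = ∑ p ∈ S, w p * (a + y ⬝ᵥ c p) := by
    simp only [mul_add, Finset.sum_add_distrib, ← Finset.sum_mul, h1, one_mul, dotProduct_sum,
      dotProduct_smul, smul_eq_mul]
  rw [this]
  exact Finset.sum_nonneg fun p hp => mul_nonneg (h0 p hp) (h p hp)

lemma int_pos {Q : Set (Fin d → ℝ)} (h : (0 : Fin d → ℝ) ∈ interior Q) {a : ℝ} {y : Fin d → ℝ}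
    (hy : ∀ x ∈ Q, 0 ≤ a + y ⬝ᵥ x) : 0 ≤ a ∧ (a = 0 → y = 0) := by
  refine ⟨by simpa using hy 0 (interior_subset h), fun ha => ?_⟩
  have hc : Continuous fun t : ℝ => t • (-y) := by fun_prop
  have h1 : (fun t : ℝ => t • (-y)) ⁻¹' interior Q ∈ nhds (0 : ℝ) :=
    hc.continuousAt.preimage_mem_nhds (by simpa using isOpen_interior.mem_nhds h)
  obtain ⟨ε, hε, hb⟩ := Metric.mem_nhds_iff.1 h1
  have h2 := hy _ (interior_subset (hb (show ε / 2 ∈ Metric.ball (0 : ℝ) ε by
    rw [Metric.mem_ball, Real.dist_eq, sub_zero, abs_of_pos (by linarith)]; linarith)))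
  rw [ha, zero_add, dotProduct_smul, dotProduct_neg, smul_eq_mul] at h2
  have h3 : 0 ≤ y ⬝ᵥ y := Finset.sum_nonneg fun i _ => mul_self_nonneg _
  exact dotProduct_self_eq_zero.1 (by nlinarith)

lemma bridge (hd : 1 ≤ d) (S T : Finset (Fin d → ℤ)) (r : ℕ) (hr : 1 ≤ r) (m : Fin d → ℤ)
    (hint : (0 : Fin d → ℝ) ∈ interior ((fun x => (r : ℝ) • x - c m) ''
      convexHull ℝ (c '' (S : Set (Fin d → ℤ)))))
    (hT : {y | ∀ x ∈ (fun x => (r : ℝ) • x - c m) '' convexHull ℝ (c '' (S : Set (Fin d → ℤ))),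
      -1 ≤ x ⬝ᵥ y} = convexHull ℝ (c '' (T : Set (Fin d → ℤ)))) :
    ∃ U : Finset (Option (Fin d) → ℤ),
      (∀ u ∈ U, ∀ v ∈ S.image (hom 1), 0 ≤ u ⬝ᵥ v) ∧ (∀ u ∈ U, u ⬝ᵥ hom (r : ℤ) m = 1) ∧
      (∀ z : Option (Fin d) → ℝ, (∀ u ∈ U, 0 ≤ c u ⬝ᵥ z) →
        ∃ l : (Option (Fin d) → ℤ) → ℝ, (∀ v ∈ S.image (hom 1), 0 ≤ l v) ∧
          z = ∑ v ∈ S.image (hom 1), l v • c v) ∧
      (∀ φ : Option (Fin d) → ℝ, (∀ v ∈ S.image (hom 1), 0 ≤ φ ⬝ᵥ c v) →
        ∃ μ : (Option (Fin d) → ℤ) → ℝ, (∀ u ∈ U, 0 ≤ μ u) ∧ φ = ∑ u ∈ U, μ u • c u) := by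
  classical
  have hr0 : (0 : ℝ) < r := by exact_mod_cast hr
  set P := convexHull ℝ (c '' (S : Set (Fin d → ℤ))) with hP
  have hD : ∀ y : Fin d → ℝ, y ∈ convexHull ℝ (c '' (T : Set (Fin d → ℤ))) ↔
      ∀ p ∈ S, 0 ≤ (1 - y ⬝ᵥ c m) + r * (y ⬝ᵥ c p) := by
    intro y
    rw [← hT]
    constructor
    · intro h p hp
      have := h _ ⟨c p, subset_convexHull ℝ _ ⟨p, hp, rfl⟩, rfl⟩
      simp only [sub_dotProduct, smul_dotProduct, smul_eq_mul] at this
      rw [dotProduct_comm y, dotProduct_comm y]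
      linarith
    · rintro h _ ⟨x, hx, rfl⟩
      have := hull_ineq (a := 1 - y ⬝ᵥ c m) (y := (r : ℝ) • y)
        (fun p hp => by simpa using h p hp) hx
      simp only [sub_dotProduct, smul_dotProduct, smul_eq_mul] at this ⊢
      rw [dotProduct_comm x, dotProduct_comm (c m)]
      linarith
  set T0 := T.filter fun y => ∃ p ∈ S, 1 - y ⬝ᵥ m + r * (y ⬝ᵥ p) = 0 with hT0
  have hTT : convexHull ℝ (c '' (T : Set (Fin d → ℤ))) ⊆
      convexHull ℝ (c '' (T0 : Set (Fin d → ℤ))) := by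
    have : Nontrivial (Fin d → ℝ) := by
      have : Nonempty (Fin d) := ⟨⟨0, hd⟩⟩
      infer_instance
    have hf : ∀ A : Finset (Fin d → ℤ), (c '' (A : Set (Fin d → ℤ))).Finite :=
      fun A => A.finite_toSet.image _
    rw [← closure_convexHull_extremePoints ((hf T).isCompact_convexHull ℝ) (convex_convexHull ℝ _)]
    refine closure_minimal (convexHull_mono ?_) ((hf T0).isClosed_convexHull ℝ)
    intro y hy
    obtain ⟨t, ht, rfl⟩ := extremePoints_convexHull_subset hy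
    refine ⟨t, ?_, rfl⟩
    rw [hT0, Finset.mem_coe, Finset.mem_filter]
    refine ⟨ht, ?_⟩
    by_contra hc
    push Not at hc
    refine Set.disjoint_left.1 (disjoint_interior_extremePoints _) ?_ hy
    have ho : IsOpen (⋂ p ∈ S, {y : Fin d → ℝ | 0 < (1 - y ⬝ᵥ c m) + r * (y ⬝ᵥ c p)}) :=
      isOpen_biInter_finset fun p _ => isOpen_lt continuous_const (by
        simp only [dotProduct]; fun_prop)
    refine mem_interior.2 ⟨_, fun y hy => (hD y).2 fun p hp => ?_, ho, ?_⟩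
    · simp only [Set.mem_iInter, Set.mem_ofPred_eq] at hy
      exact (hy p hp).le
    · simp only [Set.mem_iInter, Set.mem_ofPred_eq]
      intro p hp
      have h1 := (hD (c t)).1 (extremePoints_subset hy) p hp
      refine lt_of_le_of_ne h1 fun e => hc p hp ?_
      rw [c_dot, c_dot] at e
      exact_mod_cast e.symm
  have hex : ∀ y ∈ T0, ∃ a : ℤ, a * r + y ⬝ᵥ m = 1 := by
    intro y hy
    obtain ⟨-, p, -, h⟩ := Finset.mem_filter.1 hy
    exact ⟨-(y ⬝ᵥ p), by linarith⟩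
  choose! a ha using hex
  have hdu : ∀ φ : Option (Fin d) → ℝ, (∀ v ∈ S.image (hom 1), 0 ≤ φ ⬝ᵥ c v) →
      ∃ μ : (Option (Fin d) → ℤ) → ℝ, (∀ u ∈ T0.image fun y => hom (a y) y, 0 ≤ μ u) ∧
        φ = ∑ u ∈ T0.image fun y => hom (a y) y, μ u • c u := by
    intro φ hφ
    obtain ⟨α, w, rfl⟩ : ∃ α w, φ = hom α w := ⟨_, _, (hom_eta φ).symm⟩
    have h1 : ∀ p ∈ S, 0 ≤ α + w ⬝ᵥ c p := fun p hp => by
      have := hφ _ (Finset.mem_image_of_mem _ hp)
      rwa [c_hom, hom_dot, Int.cast_one, mul_one] at this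
    have h2 := int_pos hint (a := r * α + w ⬝ᵥ c m) (y := w) (by
      rintro _ ⟨x, hx, rfl⟩
      have := hull_ineq h1 hx
      simp only [dotProduct_sub, dotProduct_smul, smul_eq_mul]
      nlinarith)
    set L := r * α + w ⬝ᵥ c m with hL
    rcases h2.1.eq_or_lt with h0 | hpos
    · have hw := h2.2 h0.symm
      refine ⟨fun _ => 0, fun _ _ => le_rfl, ?_⟩
      have : α = 0 := by
        rw [hL, hw, zero_dotProduct, add_zero] at h0
        exact (mul_eq_zero.1 h0.symm).resolve_left hr0.ne'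
      rw [this, hw]
      ext o; cases o <;> simp [hom]
    · have hy : L⁻¹ • w ∈ convexHull ℝ (c '' (T0 : Set (Fin d → ℤ))) := by
        refine hTT ((hD _).2 fun p hp => ?_)
        have e : 1 - (L⁻¹ • w) ⬝ᵥ c m + r * ((L⁻¹ • w) ⬝ᵥ c p) =
            L⁻¹ * (r * (α + w ⬝ᵥ c p)) := by
          simp only [smul_dotProduct, smul_eq_mul]
          field_simp
          rw [hL]; ring
        rw [e]
        have := h1 p hp
        positivity
      obtain ⟨ω, o0, o1, o2⟩ := (mem_hull _ _).1 hy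
      refine ⟨fun u => L * ω (fun i => u (some i)), ?_, ?_⟩
      · intro u hu
        obtain ⟨y, hy, rfl⟩ := Finset.mem_image.1 hu
        exact mul_nonneg hpos.le (o0 y hy)
      · rw [Finset.sum_image (fun a _ b _ h => hom_inj h)]
        have e3 : ∑ y ∈ T0, (L * ω y) • c y = w := by
          simp only [mul_smul, ← Finset.smul_sum, o2]
          rw [smul_smul, mul_inv_cancel₀ hpos.ne', one_smul]
        ext o
        rw [Finset.sum_apply]
        cases o with
        | none =>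
          show α = ∑ y ∈ T0, (L * ω y) * (a y : ℝ)
          have e4 := congrArg (fun z => z ⬝ᵥ c m) e3
          simp only [sum_dotProduct, smul_dotProduct, c_dot, smul_eq_mul] at e4
          have e5 : ∑ y ∈ T0, (L * ω y) * (a y : ℝ) * r + ∑ y ∈ T0, L * ω y * ((y ⬝ᵥ m : ℤ) : ℝ)
              = L := by
            rw [← Finset.sum_add_distrib]
            have : ∀ y ∈ T0, (L * ω y) * (a y : ℝ) * r + L * ω y * ((y ⬝ᵥ m : ℤ) : ℝ) = L * ω y := by
              intro y hy
              have h5 : (a y : ℝ) * r + ((y ⬝ᵥ m : ℤ) : ℝ) = 1 := by exact_mod_cast ha y hy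
              linear_combination (L * ω y) * h5
            rw [Finset.sum_congr rfl this, ← Finset.mul_sum, o1, mul_one]
          rw [e4, ← Finset.sum_mul] at e5
          apply mul_right_cancel₀ hr0.ne'
          linarith
        | some i =>
          have := congrFun e3 i
          rw [Finset.sum_apply] at this
          exact this.symm
  refine ⟨T0.image fun y => hom (a y) y, ?_, ?_, ?_, hdu⟩
  · intro u hu v hv
    obtain ⟨y, hy, rfl⟩ := Finset.mem_image.1 hu
    obtain ⟨p, hp, rfl⟩ := Finset.mem_image.1 hv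
    have h1 := (hD (c y)).1 (subset_convexHull ℝ _ ⟨y, (Finset.mem_filter.1 hy).1, rfl⟩) p hp
    rw [c_dot, c_dot] at h1
    have h2 : 0 ≤ 1 - y ⬝ᵥ m + r * (y ⬝ᵥ p) := by exact_mod_cast h1
    have h3 := ha y hy
    rw [hom_dot, mul_one]
    have h4 : (0 : ℤ) < r := by exact_mod_cast hr
    by_contra hc
    nlinarith
  · intro u hu
    obtain ⟨y, hy, rfl⟩ := Finset.mem_image.1 hu
    rw [hom_dot, ha y hy]
  · intro z hz
    obtain ⟨h, x, rfl⟩ : ∃ α w, z = hom α w := ⟨_, _, (hom_eta z).symm⟩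
    have key : ∀ (α : ℝ) (w : Fin d → ℝ), (∀ p ∈ S, 0 ≤ α + w ⬝ᵥ c p) → 0 ≤ α * h + w ⬝ᵥ x := by
      intro α w hw
      obtain ⟨μ, hμ, e⟩ := hdu (hom α w) (by
        intro v hv
        obtain ⟨p, hp, rfl⟩ := Finset.mem_image.1 hv
        rw [c_hom, hom_dot, Int.cast_one, mul_one]
        exact hw p hp)
      rw [← hom_dot, e, sum_dotProduct]
      exact Finset.sum_nonneg fun u hu => by
        rw [smul_dotProduct]; exact mul_nonneg (hμ u hu) (hz u hu)
    have h0 : 0 ≤ h := by simpa using key 1 0 (by simp)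
    rcases h0.eq_or_lt with h0 | hpos
    · refine ⟨fun _ => 0, fun _ _ => le_rfl, ?_⟩
      have h1 := key (∑ p ∈ S, |x ⬝ᵥ c p|) (-x) (fun p hp => by
        have := Finset.single_le_sum (f := fun p => |x ⬝ᵥ c p|) (fun _ _ => abs_nonneg _) hp
        have := le_abs_self (x ⬝ᵥ c p)
        rw [neg_dotProduct]
        linarith)
      rw [← h0, mul_zero, zero_add, neg_dotProduct] at h1
      have h3 : 0 ≤ x ⬝ᵥ x := Finset.sum_nonneg fun i _ => mul_self_nonneg _
      have h4 : x = 0 := dotProduct_self_eq_zero.1 (by linarith)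
      rw [← h0, h4]
      ext o; cases o <;> simp [hom]
    · have hx : h⁻¹ • x ∈ P := by
        by_contra hc
        obtain ⟨f, u, f1, f2⟩ := geometric_hahn_banach_point_closed (convex_convexHull ℝ _)
          ((S.finite_toSet.image _).isClosed_convexHull ℝ) hc
        have hf : ∀ y : Fin d → ℝ, f y = (fun i => f (Pi.single i 1)) ⬝ᵥ y := by
          intro y
          conv_lhs => rw [pi_eq_sum_univ' y]
          simp [dotProduct, mul_comm]
        have := key (-u) (fun i => f (Pi.single i 1)) (fun p hp => by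
          rw [← hf]
          have := f2 _ (subset_convexHull ℝ _ ⟨p, hp, rfl⟩)
          linarith)
        rw [← hf] at this
        rw [map_smul, smul_eq_mul, inv_mul_lt_iff₀ hpos] at f1
        linarith
      obtain ⟨ω, o0, o1, o2⟩ := (mem_hull _ _).1 hx
      refine ⟨fun u => h * ω (fun i => u (some i)), ?_, ?_⟩
      · intro u hu
        obtain ⟨y, hy, rfl⟩ := Finset.mem_image.1 hu
        exact mul_nonneg hpos.le (o0 y hy)
      · rw [Finset.sum_image (fun a _ b _ h => hom_inj h)]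
        have e3 : ∑ y ∈ S, (h * ω y) • c y = x := by
          simp only [mul_smul, ← Finset.smul_sum, o2]
          rw [smul_smul, mul_inv_cancel₀ hpos.ne', one_smul]
        ext o
        rw [Finset.sum_apply]
        cases o with
        | none =>
          show h = ∑ y ∈ S, (h * ω y) * ((1 : ℤ) : ℝ)
          simp [← Finset.mul_sum, o1]
        | some i =>
          have := congrFun e3 i
          rw [Finset.sum_apply] at this
          exact this.symm

end Pool.Agent.H.MP_92a118_co
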