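import Mathlib

set_option autoImplicit false

namespace Pool.Agent.H.MP_92a118_co

open Finset

lemma conic_cara {F α : Type} [AddCommGroup F] [Module ℝ F] [DecidableEq α] (g : α → F) :
    ∀ (n : ℕ) (s : Finset α) (l : α → ℝ), s.card = n → (∀ a ∈ s, 0 ≤ l a) →
      ∃ t ⊆ s, ∃ μ : α → ℝ, (∀ a ∈ t, 0 < μ a) ∧ LinearIndepOn ℝ g (t : Set α) ∧
        ∑ a ∈ t, μ a • g a = ∑ a ∈ s, l a • g a := by
  intro n
  induction n using Nat.strong_induction_on with
  | _ n ih =>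
  intro s l hs hl
  have step : ∀ (l' : α → ℝ) (a0 : α), a0 ∈ s → l' a0 = 0 → (∀ a ∈ s, 0 ≤ l' a) →
      ∑ a ∈ s, l' a • g a = ∑ a ∈ s, l a • g a →
      ∃ t ⊆ s, ∃ μ : α → ℝ, (∀ a ∈ t, 0 < μ a) ∧ LinearIndepOn ℝ g (t : Set α) ∧
        ∑ a ∈ t, μ a • g a = ∑ a ∈ s, l a • g a := by
    intro l' a0 ha0 h0 hl' he
    obtain ⟨t, ht, μ, h1, h2, h3⟩ := ih (s.erase a0).card
      (by rw [← hs]; exact Finset.card_erase_lt_of_mem ha0) (s.erase a0) l' rfl
      (fun a ha => hl' a (Finset.mem_of_mem_erase ha))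
    refine ⟨t, ht.trans (Finset.erase_subset _ _), μ, h1, h2, ?_⟩
    rw [h3, ← he, ← Finset.add_sum_erase s _ ha0, h0, zero_smul, zero_add]
  by_cases hz : ∃ a ∈ s, l a = 0
  · obtain ⟨a0, ha0, h0⟩ := hz
    exact step l a0 ha0 h0 hl rfl
  push Not at hz
  by_cases hi : LinearIndepOn ℝ g (s : Set α)
  · exact ⟨s, Finset.Subset.refl _, l, fun a ha => lt_of_le_of_ne (hl a ha) (hz a ha).symm, hi, rfl⟩
  rw [not_linearIndepOn_finset_iff] at hi
  obtain ⟨c0, hc0, i0, hi0, hne⟩ := hi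
  have : ∃ c : α → ℝ, ∑ a ∈ s, c a • g a = 0 ∧ ∃ i ∈ s, 0 < c i := by
    rcases lt_or_gt_of_ne hne with h | h
    · exact ⟨fun a => -c0 a, by simp [hc0], i0, hi0, by simpa using h⟩
    · exact ⟨c0, hc0, i0, hi0, h⟩
  obtain ⟨c, hc, i1, hi1, hpos⟩ := this
  obtain ⟨a0, ha0, hmin⟩ := Finset.exists_min_image (s.filter fun a => 0 < c a)
    (fun a => l a / c a) ⟨i1, by simp [hi1, hpos]⟩
  rw [Finset.mem_filter] at ha0
  refine step (fun a => l a - l a0 / c a0 * c a) a0 ha0.1 ?_ ?_ ?_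
  · field_simp [ha0.2.ne']
    ring
  · intro a ha
    have h0 : 0 ≤ l a0 / c a0 := div_nonneg (hl _ ha0.1) ha0.2.le
    by_cases hca : 0 < c a
    · have := hmin a (by simp [ha, hca])
      rw [le_div_iff₀ hca] at this
      linarith
    · push Not at hca
      have := mul_nonneg h0 (neg_nonneg.2 hca)
      have := hl a ha
      linarith
  · simp only [sub_smul, Finset.sum_sub_distrib, mul_smul, ← Finset.smul_sum, hc, smul_zero,
      sub_zero]

end Pool.Agent.H.MP_92a118_co
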