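import Pool.Agent.H.MP_92a118_co.Abs

set_option autoImplicit false

namespace Pool.Agent.H.MP_92a118_co

open Finset Matrix

variable {ι : Type} [Fintype ι] [DecidableEq ι]
variable {V U : Finset (ι → ℤ)} {m m' : ι → ℤ}

lemma Setup.wsum (S : Setup V U m m') {μ : (ι → ℤ) → ℝ} (he : c m' = ∑ u ∈ U, μ u • c u)
    {B : Finset (ι → ℤ)} (hB : B ⊆ V) :
    ∑ u ∈ U, μ u * ((∑ b ∈ B, u ⬝ᵥ b : ℤ) : ℝ) = B.card := by
  have : ∀ b ∈ B, ∑ u ∈ U, μ u * ((u ⬝ᵥ b : ℤ) : ℝ) = 1 := by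
    intro b hb
    have h1 := congrArg (fun z => z ⬝ᵥ c b) he
    simp only [sum_dotProduct, smul_dotProduct, c_dot, S.vm b (hB hb), smul_eq_mul] at h1
    rw [← h1]; simp
  simp only [Int.cast_sum, Finset.mul_sum]
  rw [Finset.sum_comm, Finset.sum_congr rfl this]
  simp

lemma Setup.count (S : Setup V U m m') (s : ℕ) (hn : Fintype.card ι = 3 * s)
    (hr : m' ⬝ᵥ m = 2 * s) :
    ∃ J ⊆ V, ∃ B ⊆ V, J.card = 2 * s ∧ B.card = s ∧ (∀ u ∈ U, ∑ j ∈ J, u ⬝ᵥ j = 1) ∧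
      (∀ u ∈ U, ∑ b ∈ B, u ⬝ᵥ b ≤ 1) ∧
      ∀ u ∈ U, ∀ u' ∈ U, u ≠ u' → (∀ j ∈ J, u ⬝ᵥ j = u' ⬝ᵥ j) →
        ∑ b ∈ B, u ⬝ᵥ b + ∑ b ∈ B, u' ⬝ᵥ b = 1 := by
  classical
  obtain ⟨J, hJ, I, hI, l, hl0, hl1, hind, hm, hd⟩ := S.decomp
  have hJn : ∀ u ∈ U, ∀ j ∈ J, 0 ≤ u ⬝ᵥ j := fun u hu j hj => S.nn u hu j (hJ hj)
  have hIn : ∀ u ∈ U, ∀ i ∈ I, (0 : ℝ) ≤ ((u ⬝ᵥ i : ℤ) : ℝ) := fun u hu i hi => by
    exact_mod_cast S.nn u hu i (hI hi)
  have hIs : ∀ u ∈ U, 0 ≤ ∑ i ∈ I, l i * ((u ⬝ᵥ i : ℤ) : ℝ) := fun u hu =>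
    Finset.sum_nonneg fun i hi => mul_nonneg (hl0 i hi).le (hIn u hu i hi)
  have key : ∀ w : ι → ℤ, ((w ⬝ᵥ m : ℤ) : ℝ) =
      ((∑ j ∈ J, w ⬝ᵥ j : ℤ) : ℝ) + ∑ i ∈ I, l i * ((w ⬝ᵥ i : ℤ) : ℝ) := by
    intro w
    have h1 := congrArg (fun z => c w ⬝ᵥ z) hm
    simp only [dotProduct_add, dotProduct_sum, dotProduct_smul, c_dot, smul_eq_mul] at h1
    rw [h1, Int.cast_sum]
  have keyu : ∀ u ∈ U, ((∑ j ∈ J, u ⬝ᵥ j : ℤ) : ℝ) + ∑ i ∈ I, l i * ((u ⬝ᵥ i : ℤ) : ℝ) = 1 := by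
    intro u hu
    rw [← key u, S.um u hu]; simp
  have hle : ∀ u ∈ U, ∑ j ∈ J, u ⬝ᵥ j ≤ 1 := by
    intro u hu
    have h1 := keyu u hu
    have h2 := hIs u hu
    have : ((∑ j ∈ J, u ⬝ᵥ j : ℤ) : ℝ) ≤ 1 := by linarith
    exact_mod_cast this
  have hI0 : ∀ u ∈ U, ∑ j ∈ J, u ⬝ᵥ j = 1 → ∀ i ∈ I, u ⬝ᵥ i = 0 := by
    intro u hu h1 i hi
    have h2 := keyu u hu
    rw [h1] at h2
    have h3 : ∑ i ∈ I, l i * ((u ⬝ᵥ i : ℤ) : ℝ) = 0 := by push_cast at h2 ⊢; linarith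
    rw [Finset.sum_eq_zero_iff_of_nonneg
      (fun i hi => mul_nonneg (hl0 i hi).le (hIn u hu i hi))] at h3
    have := (mul_eq_zero.1 (h3 i hi)).resolve_left (hl0 i hi).ne'
    exact_mod_cast this
  -- one-hot structure
  have hone : ∀ u ∈ U, ∀ j ∈ J, u ⬝ᵥ j ≠ 0 →
      u ⬝ᵥ j = 1 ∧ ∑ j ∈ J, u ⬝ᵥ j = 1 ∧ ∀ j' ∈ J, j' ≠ j → u ⬝ᵥ j' = 0 := by
    intro u hu j hj h0
    have h1 := hle u hu
    have h2 := Finset.add_sum_erase J (fun j => u ⬝ᵥ j) hj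
    have h3 : ∀ j' ∈ J.erase j, 0 ≤ u ⬝ᵥ j' := fun j' h => hJn u hu j' (Finset.mem_of_mem_erase h)
    have h4 := Finset.sum_nonneg h3
    have h5 := hJn u hu j hj
    refine ⟨by omega, by omega, fun j' hj' hne => ?_⟩
    exact (Finset.sum_eq_zero_iff_of_nonneg h3).1 (by omega) j' (Finset.mem_erase.2 ⟨hne, hj'⟩)
  -- step 3
  have h3 : 2 * ∑ i ∈ I, l i ≤ I.card := by
    have := (S.ht (z := ∑ i ∈ I, (1 - 2 * l i) • c i) (by
      intro u hu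
      simp only [dotProduct_sum, dotProduct_smul, c_dot, smul_eq_mul]
      have e1 : ∑ i ∈ I, (1 - 2 * l i) * ((u ⬝ᵥ i : ℤ) : ℝ) =
          ((∑ i ∈ I, u ⬝ᵥ i : ℤ) : ℝ) - 2 * ∑ i ∈ I, l i * ((u ⬝ᵥ i : ℤ) : ℝ) := by
        rw [Int.cast_sum, Finset.mul_sum, ← Finset.sum_sub_distrib]
        exact Finset.sum_congr rfl fun i _ => by ring
      rw [e1]
      have h0 : 0 ≤ ∑ j ∈ J, u ⬝ᵥ j := Finset.sum_nonneg (hJn u hu)
      have h1 := hle u hu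
      have h2 := keyu u hu
      by_cases hc : ∑ j ∈ J, u ⬝ᵥ j = 1
      · have := hI0 u hu hc
        rw [Finset.sum_eq_zero this, Finset.sum_eq_zero (fun i hi => by rw [this i hi]; simp)]
        simp
      · have h4 : ∑ j ∈ J, u ⬝ᵥ j = 0 := by omega
        rw [h4] at h2
        have h5 : ∑ i ∈ I, l i * ((u ⬝ᵥ i : ℤ) : ℝ) = 1 := by simpa using h2
        rw [h5]
        have h6 : ∑ i ∈ I, l i * ((u ⬝ᵥ i : ℤ) : ℝ) < ∑ i ∈ I, ((u ⬝ᵥ i : ℤ) : ℝ) := by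
          apply Finset.sum_lt_sum
          · intro i hi
            have := hIn u hu i hi
            have := hl1 i hi
            nlinarith
          · by_contra hc2
            push Not at hc2
            have : ∑ i ∈ I, l i * ((u ⬝ᵥ i : ℤ) : ℝ) = 0 := Finset.sum_eq_zero fun i hi => by
              have a1 := hIn u hu i hi
              have a2 := hl1 i hi
              have a3 := hc2 i hi
              have : ((u ⬝ᵥ i : ℤ) : ℝ) = 0 := by nlinarith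
              rw [this, mul_zero]
            linarith
        rw [h5, ← Int.cast_sum] at h6
        have h7 : (1 : ℤ) < ∑ i ∈ I, u ⬝ᵥ i := by exact_mod_cast h6
        have h8 : (2 : ℤ) ≤ ∑ i ∈ I, u ⬝ᵥ i := h7
        have h9 : (2 : ℝ) ≤ ((∑ i ∈ I, u ⬝ᵥ i : ℤ) : ℝ) := by exact_mod_cast h8
        linarith)).1
    simp only [dotProduct_sum, dotProduct_smul, c_dot, smul_eq_mul] at this
    rw [Finset.sum_congr rfl (fun i hi => by rw [S.vm i (hI hi)])] at this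
    simp only [Int.cast_one, mul_one, Finset.sum_sub_distrib, ← Finset.mul_sum] at this
    simp at this
    linarith
  have hr' : (2 * s : ℝ) = J.card + ∑ i ∈ I, l i := by
    have := key m'
    have e : ∑ i ∈ I, l i * ((m' ⬝ᵥ i : ℤ) : ℝ) = ∑ i ∈ I, l i :=
      Finset.sum_congr rfl (fun i hi => by rw [S.vm i (hI hi)]; simp)
    rw [hr, Finset.sum_congr rfl (fun j hj => S.vm j (hJ hj)), e] at this
    simpa using this
  -- step 4
  have hli : LinearIndepOn ℝ c ((J ∪ I : Finset (ι → ℤ)) : Set (ι → ℤ)) := by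
    rw [linearIndepOn_finset_iff] at hind ⊢
    intro f hf
    rw [Finset.sum_union hd] at hf
    have hJ0 : ∀ j ∈ J, f j = 0 := by
      intro j hj
      obtain ⟨u, hu, h1⟩ := S.ex_pos (hJ hj)
      obtain ⟨a1, a2, a3⟩ := hone u hu j hj (by omega)
      have h2 := congrArg (fun z => c u ⬝ᵥ z) hf
      simp only [dotProduct_add, dotProduct_sum, dotProduct_smul, c_dot, smul_eq_mul,
        dotProduct_zero] at h2
      rw [Finset.sum_eq_single_of_mem j hj (fun j' hj' hne => by rw [a3 j' hj' hne]; simp), a1,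
        Finset.sum_eq_zero (fun i hi => by rw [hI0 u hu a2 i hi]; simp)] at h2
      simpa using h2
    rw [Finset.sum_eq_zero (fun j hj => by rw [hJ0 j hj, zero_smul]), zero_add] at hf
    intro i hi
    rcases Finset.mem_union.1 hi with h | h
    · exact hJ0 i h
    · exact hind f hf i h
  set W : Submodule ℝ (ι → ℝ) := Submodule.span ℝ (c '' ((J ∪ I : Finset (ι → ℤ)) : Set (ι → ℤ)))
    with hW
  have hWr : Module.finrank ℝ W = J.card + I.card := by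
    have := finrank_span_eq_card hli
    rw [← Set.image_eq_range] at this
    rw [hW, this, ← Finset.card_union_of_disjoint hd]
    simp
  have hmW : c m ∈ W := by
    rw [hm]
    refine W.add_mem (W.sum_mem fun j hj => Submodule.subset_span ⟨j, by simp [hj], rfl⟩)
      (W.sum_mem fun i hi => W.smul_mem _ (Submodule.subset_span ⟨i, by simp [hi], rfl⟩))
  have hag : ∀ u ∈ U, ∀ u' ∈ U, ∑ j ∈ J, u ⬝ᵥ j = 1 → (∀ j ∈ J, u ⬝ᵥ j = u' ⬝ᵥ j) →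
      ∀ w ∈ W, c u ⬝ᵥ w = c u' ⬝ᵥ w := by
    intro u hu u' hu' h1 h2 w hw
    have h1' : ∑ j ∈ J, u' ⬝ᵥ j = 1 := by rw [← h1]; exact Finset.sum_congr rfl fun j hj => (h2 j hj).symm
    induction hw using Submodule.span_induction with
    | mem x hx =>
      obtain ⟨v, hv, rfl⟩ := hx
      rw [c_dot, c_dot]
      rcases Finset.mem_union.1 (Finset.mem_coe.1 hv) with h | h
      · rw [h2 v h]
      · rw [hI0 u hu h1 v h, hI0 u' hu' h1' v h]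
    | zero => simp
    | add x y _ _ hx hy => rw [dotProduct_add, dotProduct_add, hx, hy]
    | smul a x _ hx => rw [dotProduct_smul, dotProduct_smul, hx]
  obtain ⟨z, hz⟩ := ex_generic U
  obtain ⟨B, hB, hBc, hBp⟩ := S.few W hmW z
  obtain ⟨B', hB', hBc', hBp'⟩ := S.few W hmW (-z)
  obtain ⟨μ, hμ, he⟩ := S.mu
  have hBn : ∀ u ∈ U, 0 ≤ ∑ b ∈ B, u ⬝ᵥ b := fun u hu =>
    Finset.sum_nonneg fun b hb => S.nn u hu b (hB hb)
  have hBn' : ∀ u ∈ U, 0 ≤ ∑ b ∈ B', u ⬝ᵥ b := fun u hu =>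
    Finset.sum_nonneg fun b hb => S.nn u hu b (hB' hb)
  have hpair : ∀ u ∈ U, ∀ u' ∈ U, u ≠ u' → ∑ j ∈ J, u ⬝ᵥ j = 1 → (∀ j ∈ J, u ⬝ᵥ j = u' ⬝ᵥ j) →
      (1 ≤ ∑ b ∈ B, u ⬝ᵥ b ∧ 1 ≤ ∑ b ∈ B', u' ⬝ᵥ b) ∨
      (1 ≤ ∑ b ∈ B, u' ⬝ᵥ b ∧ 1 ≤ ∑ b ∈ B', u ⬝ᵥ b) := by
    intro u hu u' hu' hne h1 h2
    have a := hag u hu u' hu' h1 h2
    have a' : ∀ w ∈ W, c u' ⬝ᵥ w = c u ⬝ᵥ w := fun w hw => (a w hw).symm
    rcases lt_or_gt_of_ne (hz u hu u' hu' hne) with h | h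
    · exact Or.inr ⟨hBp u' hu' u hu a' h,
        hBp' u hu u' hu' a (by rw [dotProduct_neg, dotProduct_neg]; linarith)⟩
    · exact Or.inl ⟨hBp u hu u' hu' a h,
        hBp' u' hu' u hu a' (by rw [dotProduct_neg, dotProduct_neg]; linarith)⟩
  have hge : ∀ u ∈ U, ∑ j ∈ J, u ⬝ᵥ j ≤ ∑ b ∈ B, u ⬝ᵥ b + ∑ b ∈ B', u ⬝ᵥ b := by
    intro u hu
    have a1 := hBn u hu
    have a2 := hBn' u hu
    have a3 := hle u hu
    by_cases hc : ∑ j ∈ J, u ⬝ᵥ j = 1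
    · obtain ⟨j, hj, h0⟩ := Finset.exists_ne_zero_of_sum_ne_zero (s := J) (f := fun j => u ⬝ᵥ j)
        (by rw [hc]; exact one_ne_zero)
      obtain ⟨b1, -, b3⟩ := hone u hu j hj h0
      obtain ⟨u', hu', hne, h0'⟩ := S.np j (hJ hj) u hu b1
      obtain ⟨c1, -, c3⟩ := hone u' hu' j hj h0'
      have := hpair u hu u' hu' hne.symm hc (fun j' hj' => by
        by_cases e : j' = j
        · rw [e, b1, c1]
        · rw [b3 j' hj' e, c3 j' hj' e])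
      omega
    · omega
  have w1 := S.wsum he hJ
  have w2 := S.wsum he hB
  have w3 := S.wsum he hB'
  have hterm : ∀ u ∈ U, 0 ≤ μ u * (((∑ b ∈ B, u ⬝ᵥ b : ℤ) : ℝ) + ((∑ b ∈ B', u ⬝ᵥ b : ℤ) : ℝ)
      - ((∑ j ∈ J, u ⬝ᵥ j : ℤ) : ℝ)) := by
    intro u hu
    refine mul_nonneg (hμ u hu).le ?_
    rw [sub_nonneg]
    exact_mod_cast hge u hu
  have hsum : ∑ u ∈ U, μ u * (((∑ b ∈ B, u ⬝ᵥ b : ℤ) : ℝ) + ((∑ b ∈ B', u ⬝ᵥ b : ℤ) : ℝ)
      - ((∑ j ∈ J, u ⬝ᵥ j : ℤ) : ℝ)) = (B.card : ℝ) + B'.card - J.card := by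
    simp only [mul_sub, mul_add, Finset.sum_sub_distrib, Finset.sum_add_distrib]
    rw [w1, w2, w3]
  have hk : J.card ≤ B.card + B'.card := by
    have := Finset.sum_nonneg hterm
    rw [hsum, sub_nonneg] at this
    exact_mod_cast this
  have h4s : 4 * s ≤ 2 * J.card + I.card := by
    have : (4 * s : ℝ) ≤ 2 * J.card + I.card := by linarith
    exact_mod_cast this
  have hIc : I.card = 0 := by omega
  have hIe : I = ∅ := Finset.card_eq_zero.1 hIc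
  have hJc : J.card = 2 * s := by
    rw [hIe] at hr'
    simp at hr'
    exact_mod_cast hr'.symm
  have hall : ∀ u ∈ U, ∑ j ∈ J, u ⬝ᵥ j = 1 := by
    intro u hu
    have := keyu u hu
    rw [hIe] at this
    simp only [Finset.sum_empty, add_zero] at this
    exact_mod_cast this
  have hb1 : B.card = s := by omega
  have hb2 : B'.card = s := by omega
  have heq : ∀ u ∈ U, ∑ b ∈ B, u ⬝ᵥ b + ∑ b ∈ B', u ⬝ᵥ b = 1 := by
    intro u hu
    have h0 : (B.card : ℝ) + B'.card - J.card = 0 := by rw [hb1, hb2, hJc]; push_cast; ring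
    rw [h0, Finset.sum_eq_zero_iff_of_nonneg hterm] at hsum
    have := (mul_eq_zero.1 (hsum u hu)).resolve_left (hμ u hu).ne'
    rw [hall u hu, sub_eq_zero] at this
    exact_mod_cast this
  refine ⟨J, hJ, B, hB, hJc, hb1, hall, fun u hu => ?_, fun u hu u' hu' hne h2 => ?_⟩
  · have := heq u hu
    have := hBn' u hu
    omega
  · have := hpair u hu u' hu' hne (hall u hu) h2
    have := heq u hu
    have := heq u' hu'
    have := hBn u hu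
    have := hBn u' hu'
    have := hBn' u hu
    have := hBn' u' hu'
    omega

end Pool.Agent.H.MP_92a118_co
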