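import Pool.Agent.H.MP_92a118_co.Count

set_option autoImplicit false

namespace Pool.Agent.H.MP_92a118_co

open Finset Matrix

variable {ι : Type} [Fintype ι] [DecidableEq ι]
variable {V U : Finset (ι → ℤ)} {m m' : ι → ℤ}

lemma onehot {α : Type} [DecidableEq α] {J : Finset α} {f : α → ℤ} (h0 : ∀ j ∈ J, 0 ≤ f j)
    (h1 : ∑ j ∈ J, f j ≤ 1) {j : α} (hj : j ∈ J) (hne : f j ≠ 0) :
    f j = 1 ∧ ∀ j' ∈ J, j' ≠ j → f j' = 0 := by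
  have h2 := Finset.add_sum_erase J f hj
  have h3 : ∀ j' ∈ J.erase j, 0 ≤ f j' := fun j' h => h0 j' (Finset.mem_of_mem_erase h)
  have h4 := Finset.sum_nonneg h3
  have h5 := h0 j hj
  refine ⟨by omega, fun j' hj' hne => ?_⟩
  exact (Finset.sum_eq_zero_iff_of_nonneg h3).1 (by omega) j' (Finset.mem_erase.2 ⟨hne, hj'⟩)

/-- combinatorial structure of the extremal cone -/
lemma Setup.comb (S : Setup V U m m') (s : ℕ) (hn : Fintype.card ι = 3 * s)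
    (hr : m' ⬝ᵥ m = 2 * s) :
    ∃ b f g p q p' q' : Fin s → ι → ℤ, (∀ i, b i ∈ V ∧ f i ∈ V ∧ g i ∈ V) ∧
      (∀ u, u ∈ U ↔ ∃ i, u = p i ∨ u = q i ∨ u = p' i ∨ u = q' i) ∧
      ∀ i k, p i ⬝ᵥ b k = 0 ∧ p i ⬝ᵥ f k = (if i = k then 1 else 0) ∧ p i ⬝ᵥ g k = 0 ∧
        q i ⬝ᵥ b k = (if i = k then 1 else 0) ∧ q i ⬝ᵥ f k = (if i = k then 1 else 0) ∧
        q i ⬝ᵥ g k = 0 ∧
        p' i ⬝ᵥ b k = 0 ∧ p' i ⬝ᵥ f k = 0 ∧ p' i ⬝ᵥ g k = (if i = k then 1 else 0) ∧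
        q' i ⬝ᵥ b k = (if i = k then 1 else 0) ∧ q' i ⬝ᵥ f k = 0 ∧
        q' i ⬝ᵥ g k = (if i = k then 1 else 0) := by
  classical
  obtain ⟨J, hJ, B, hB, hJc, hBc, hall, hle, hpair⟩ := S.count s hn hr
  have hJn : ∀ u ∈ U, ∀ j ∈ J, 0 ≤ u ⬝ᵥ j := fun u hu j hj => S.nn u hu j (hJ hj)
  have hBn : ∀ u ∈ U, ∀ j ∈ B, 0 ≤ u ⬝ᵥ j := fun u hu j hj => S.nn u hu j (hB hj)
  have hone : ∀ u ∈ U, ∀ j ∈ J, u ⬝ᵥ j ≠ 0 → u ⬝ᵥ j = 1 ∧ ∀ j' ∈ J, j' ≠ j → u ⬝ᵥ j' = 0 :=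
    fun u hu j hj h => onehot (f := fun j => u ⬝ᵥ j) (hJn u hu) (hall u hu).le hj h
  have hag : ∀ u ∈ U, ∀ u' ∈ U, ∀ j ∈ J, u ⬝ᵥ j ≠ 0 → u' ⬝ᵥ j ≠ 0 →
      ∀ j' ∈ J, u ⬝ᵥ j' = u' ⬝ᵥ j' := by
    intro u hu u' hu' j hj h h' j' hj'
    obtain ⟨a1, a2⟩ := hone u hu j hj h
    obtain ⟨b1, b2⟩ := hone u' hu' j hj h'
    by_cases e : j' = j
    · rw [e, a1, b1]
    · rw [a2 j' hj' e, b2 j' hj' e]
  have hpq : ∀ j ∈ J, ∃ p ∈ U, ∃ q ∈ U, p ⬝ᵥ j = 1 ∧ q ⬝ᵥ j = 1 ∧ ∑ b ∈ B, p ⬝ᵥ b = 0 ∧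
      ∑ b ∈ B, q ⬝ᵥ b = 1 ∧ ∀ u ∈ U, u ⬝ᵥ j ≠ 0 → u = p ∨ u = q := by
    intro j hj
    obtain ⟨u, hu, h1⟩ := S.ex_pos (hJ hj)
    have a1 := (hone u hu j hj (by omega)).1
    obtain ⟨u', hu', hne, h0⟩ := S.np j (hJ hj) u hu a1
    have a2 := (hone u' hu' j hj h0).1
    have a3 := hpair u hu u' hu' hne.symm (hag u hu u' hu' j hj (by omega) h0)
    have a4 := Finset.sum_nonneg (hBn u hu)
    have a5 := Finset.sum_nonneg (hBn u' hu')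
    have a6 : ∀ w ∈ U, w ⬝ᵥ j ≠ 0 → w = u ∨ w = u' := by
      intro w hw hw0
      by_contra hc
      push Not at hc
      have b1 := hpair w hw u hu hc.1 (hag w hw u hu j hj hw0 (by omega))
      have b2 := hpair w hw u' hu' hc.2 (hag w hw u' hu' j hj hw0 h0)
      omega
    by_cases hc : ∑ b ∈ B, u ⬝ᵥ b = 0
    · exact ⟨u, hu, u', hu', a1, a2, hc, by omega, a6⟩
    · exact ⟨u', hu', u, hu, a2, a1, by omega, by omega, fun w hw h => (a6 w hw h).symm⟩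
  choose! p hp q hq hp1 hq1 hp0 hqs huniq using hpq
  have hp0' : ∀ j ∈ J, ∀ b ∈ B, p j ⬝ᵥ b = 0 := fun j hj =>
    (Finset.sum_eq_zero_iff_of_nonneg (hBn _ (hp j hj))).1 (hp0 j hj)
  have hex : ∀ u ∈ U, ∃ j ∈ J, u ⬝ᵥ j ≠ 0 := fun u hu =>
    Finset.exists_ne_zero_of_sum_ne_zero (s := J) (f := fun j => u ⬝ᵥ j)
      (by rw [hall u hu]; exact one_ne_zero)
  have honeB : ∀ u ∈ U, ∀ j ∈ B, u ⬝ᵥ j ≠ 0 → u ⬝ᵥ j = 1 ∧ ∀ j' ∈ B, j' ≠ j → u ⬝ᵥ j' = 0 :=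
    fun u hu j hj h => onehot (f := fun j => u ⬝ᵥ j) (hBn u hu) (hle u hu) hj h
  have hisq : ∀ u ∈ U, ∀ b ∈ B, u ⬝ᵥ b ≠ 0 → ∃ j ∈ J, u = q j := by
    intro u hu b hb h0
    obtain ⟨j, hj, h1⟩ := hex u hu
    rcases huniq j hj u hu h1 with h | h
    · exact absurd (h ▸ hp0' j hj b hb) h0
    · exact ⟨j, hj, h⟩
  have hfg : ∀ b ∈ B, ∃ j ∈ J, ∃ j' ∈ J, j ≠ j' ∧ q j ⬝ᵥ b = 1 ∧ q j' ⬝ᵥ b = 1 := by
    intro b hb
    obtain ⟨u, hu, h1⟩ := S.ex_pos (hB hb)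
    have a1 := (honeB u hu b hb (by omega)).1
    obtain ⟨u', hu', hne, h0⟩ := S.np b (hB hb) u hu a1
    have a2 := (honeB u' hu' b hb h0).1
    obtain ⟨j, hj, rfl⟩ := hisq u hu b hb (by omega)
    obtain ⟨j', hj', rfl⟩ := hisq u' hu' b hb h0
    exact ⟨j, hj, j', hj', fun e => hne (by rw [e]), a1, a2⟩
  choose! f hf g hg hfg hf1 hg1 using hfg
  have hqu : ∀ j ∈ J, ∀ b ∈ B, ∀ b' ∈ B, q j ⬝ᵥ b = 1 → q j ⬝ᵥ b' = 1 → b = b' := by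
    intro j hj b hb b' hb' h h'
    by_contra hc
    have := (honeB _ (hq j hj) b' hb' (by omega)).2 b hb hc
    omega
  have hff : ∀ b ∈ B, ∀ b' ∈ B, f b = f b' → b = b' := fun b hb b' hb' e =>
    hqu _ (hf b hb) b hb b' hb' (hf1 b hb) (e ▸ hf1 b' hb')
  have hgg : ∀ b ∈ B, ∀ b' ∈ B, g b = g b' → b = b' := fun b hb b' hb' e =>
    hqu _ (hg b hb) b hb b' hb' (hg1 b hb) (e ▸ hg1 b' hb')
  have hfg' : ∀ b ∈ B, ∀ b' ∈ B, f b ≠ g b' := fun b hb b' hb' e => by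
    have := hqu _ (hf b hb) b hb b' hb' (hf1 b hb) (e ▸ hg1 b' hb')
    subst this
    exact hfg b hb e
  have hsurj : B.image f ∪ B.image g = J := by
    apply Finset.eq_of_subset_of_card_le
    · intro j hj
      rcases Finset.mem_union.1 hj with h | h
      · obtain ⟨b, hb, rfl⟩ := Finset.mem_image.1 h; exact hf b hb
      · obtain ⟨b, hb, rfl⟩ := Finset.mem_image.1 h; exact hg b hb
    · rw [Finset.card_union_of_disjoint, Finset.card_image_of_injOn hff,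
        Finset.card_image_of_injOn hgg]
      · omega
      · rw [Finset.disjoint_left]
        intro j h h'
        obtain ⟨b, hb, rfl⟩ := Finset.mem_image.1 h
        obtain ⟨b', hb', e⟩ := Finset.mem_image.1 h'
        exact hfg' b hb b' hb' e.symm
  let e : B ≃ Fin s := Finset.equivFinOfCardEq hBc
  let β : Fin s → ι → ℤ := fun i => (e.symm i : B)
  have hβ : ∀ i, β i ∈ B := fun i => (e.symm i).2
  have hβi : ∀ i k, β i = β k → i = k := fun i k h => e.symm.injective (Subtype.ext h)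
  have hβs : ∀ b ∈ B, ∃ i, β i = b := fun b hb => ⟨e ⟨b, hb⟩, by simp [β]⟩
  have hJd : ∀ u ∈ U, ∀ j ∈ J, u ⬝ᵥ j = 1 → ∀ j' ∈ J, j' ≠ j → u ⬝ᵥ j' = 0 :=
    fun u hu j hj h => (hone u hu j hj (by omega)).2
  have hBd : ∀ u ∈ U, ∀ j ∈ B, u ⬝ᵥ j = 1 → ∀ j' ∈ B, j' ≠ j → u ⬝ᵥ j' = 0 :=
    fun u hu j hj h => (honeB u hu j hj (by omega)).2
  have dF : ∀ u ∈ U, ∀ i k, u ⬝ᵥ f (β i) = 1 →
      u ⬝ᵥ f (β k) = (if i = k then 1 else 0) ∧ u ⬝ᵥ g (β k) = 0 := by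
    intro u hu i k h
    refine ⟨?_, hJd u hu _ (hf _ (hβ i)) h _ (hg _ (hβ k)) (hfg' _ (hβ i) _ (hβ k)).symm⟩
    split_ifs with e
    · rw [← e, h]
    · exact hJd u hu _ (hf _ (hβ i)) h _ (hf _ (hβ k))
        (fun e' => e (hβi _ _ (hff _ (hβ k) _ (hβ i) e')).symm)
  have dG : ∀ u ∈ U, ∀ i k, u ⬝ᵥ g (β i) = 1 →
      u ⬝ᵥ f (β k) = 0 ∧ u ⬝ᵥ g (β k) = (if i = k then 1 else 0) := by
    intro u hu i k h
    refine ⟨hJd u hu _ (hg _ (hβ i)) h _ (hf _ (hβ k)) (hfg' _ (hβ k) _ (hβ i)), ?_⟩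
    split_ifs with e
    · rw [← e, h]
    · exact hJd u hu _ (hg _ (hβ i)) h _ (hg _ (hβ k))
        (fun e' => e (hβi _ _ (hgg _ (hβ k) _ (hβ i) e')).symm)
  have dB : ∀ u ∈ U, ∀ i k, u ⬝ᵥ β i = 1 → u ⬝ᵥ β k = (if i = k then 1 else 0) := by
    intro u hu i k h
    split_ifs with e
    · rw [← e, h]
    · exact hBd u hu _ (hβ i) h _ (hβ k) (fun e' => e (hβi _ _ e').symm)
  refine ⟨β, fun i => f (β i), fun i => g (β i), fun i => p (f (β i)), fun i => q (f (β i)),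
    fun i => p (g (β i)), fun i => q (g (β i)),
    fun i => ⟨hB (hβ i), hJ (hf _ (hβ i)), hJ (hg _ (hβ i))⟩, fun u => ⟨fun hu => ?_, ?_⟩,
    fun i k => ?_⟩
  · obtain ⟨j, hj, h0⟩ := hex u hu
    have h1 := huniq j hj u hu h0
    rw [← hsurj] at hj
    rcases Finset.mem_union.1 hj with h | h
    · obtain ⟨b, hb, rfl⟩ := Finset.mem_image.1 h
      obtain ⟨i, rfl⟩ := hβs b hb
      exact ⟨i, by tauto⟩
    · obtain ⟨b, hb, rfl⟩ := Finset.mem_image.1 h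
      obtain ⟨i, rfl⟩ := hβs b hb
      exact ⟨i, by tauto⟩
  · rintro ⟨i, h | h | h | h⟩ <;> rw [h]
    · exact hp _ (hf _ (hβ i))
    · exact hq _ (hf _ (hβ i))
    · exact hp _ (hg _ (hβ i))
    · exact hq _ (hg _ (hβ i))
  · have a := hf _ (hβ i)
    have a' := hg _ (hβ i)
    exact ⟨hp0' _ a _ (hβ k), (dF _ (hp _ a) i k (hp1 _ a)).1, (dF _ (hp _ a) i k (hp1 _ a)).2,
      dB _ (hq _ a) i k (hf1 _ (hβ i)), (dF _ (hq _ a) i k (hq1 _ a)).1,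
      (dF _ (hq _ a) i k (hq1 _ a)).2, hp0' _ a' _ (hβ k), (dG _ (hp _ a') i k (hp1 _ a')).1,
      (dG _ (hp _ a') i k (hp1 _ a')).2, dB _ (hq _ a') i k (hg1 _ (hβ i)),
      (dG _ (hq _ a') i k (hq1 _ a')).1, (dG _ (hq _ a') i k (hq1 _ a')).2⟩

lemma Setup.struct (S : Setup V U m m') (s : ℕ) (hn : Fintype.card ι = 3 * s)
    (hr : m' ⬝ᵥ m = 2 * s) :
    ∃ Φ : Matrix (Fin s ⊕ Fin s ⊕ Fin s) ι ℤ, ∃ Ψ : Matrix ι (Fin s ⊕ Fin s ⊕ Fin s) ℤ,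
      Φ * Ψ = 1 ∧ Ψ * Φ = 1 ∧ m' = ∑ k, Φ (Sum.inr k) ∧
      ∀ u, u ∈ U ↔ ∃ i, u = Φ (.inr (.inl i)) - Φ (.inl i) ∨ u = Φ (.inr (.inl i)) ∨
        u = Φ (.inr (.inr i)) ∨ u = Φ (.inr (.inr i)) + Φ (.inl i) := by
  obtain ⟨b, f, g, p, q, p', q', hV, hU, h⟩ := S.comb s hn hr
  let Φ : Matrix (Fin s ⊕ Fin s ⊕ Fin s) ι ℤ :=
    Matrix.of (Sum.elim (fun i => q i - p i) (Sum.elim q p'))
  let ψ : (Fin s ⊕ Fin s ⊕ Fin s) → ι → ℤ := Sum.elim (fun i => b i - f i) (Sum.elim f g)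
  let Ψ : Matrix ι (Fin s ⊕ Fin s ⊕ Fin s) ℤ := Matrix.of fun a k => ψ k a
  have hmul : ∀ k k', (Φ * Ψ) k k' = Φ k ⬝ᵥ ψ k' := fun k k' => rfl
  have e1 : ∀ i, Φ (.inl i) = q i - p i := fun i => rfl
  have e2 : ∀ i, Φ (.inr (.inl i)) = q i := fun i => rfl
  have e3 : ∀ i, Φ (.inr (.inr i)) = p' i := fun i => rfl
  have h1 : Φ * Ψ = 1 := by
    ext k k'
    rw [hmul]
    rcases k with i | i | i <;> rcases k' with k | k | k <;>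
      obtain ⟨a1, a2, a3, a4, a5, a6, a7, a8, a9, a10, a11, a12⟩ := h i k <;>
      simp [e1, e2, e3, ψ, sub_dotProduct, dotProduct_sub, Matrix.one_apply, a1, a2, a3, a4, a5,
        a6, a7, a8, a9]
  have hc : Fintype.card (Fin s ⊕ Fin s ⊕ Fin s) = Fintype.card ι := by simp [hn]; ring
  have h2 : Ψ * Φ = 1 :=
    (Matrix.mul_eq_one_comm_of_equiv (Fintype.equivOfCardEq hc)).1 h1
  have ext : ∀ w w' : ι → ℤ, (∀ k, w ⬝ᵥ ψ k = w' ⬝ᵥ ψ k) → w = w' := by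
    intro w w' hw
    have : w ᵥ* Ψ = w' ᵥ* Ψ := funext hw
    have h3 := congrArg (fun x => x ᵥ* Φ) this
    simpa [Matrix.vecMul_vecMul, h2] using h3
  refine ⟨Φ, Ψ, h1, h2, ?_, fun u => ?_⟩
  · apply ext
    intro k
    rw [sum_dotProduct]
    simp only [← hmul, h1]
    rcases k with k | k | k <;>
      simp [ψ, dotProduct_sub, S.vm _ (hV k).1, S.vm _ (hV k).2.1, S.vm _ (hV k).2.2,
        Matrix.one_apply]
  · rw [hU]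
    have e4 : ∀ i, q' i = p' i + (q i - p i) := by
      intro i
      apply ext
      intro k
      rcases k with k | k | k <;>
        obtain ⟨a1, a2, a3, a4, a5, a6, a7, a8, a9, a10, a11, a12⟩ := h i k <;>
        simp [ψ, sub_dotProduct, add_dotProduct, dotProduct_sub, a1, a2, a3, a4, a5,
          a6, a7, a8, a9, a10, a11, a12]
    simp only [e1, e2, e3, e4, sub_sub_cancel]

end Pool.Agent.H.MP_92a118_co
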